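import Pool.Agent.Lib.MP_d6bd81_co.Data

/-!
# A balanced configuration and its dual can have different dimensions
-/

namespace Pool.Agent.Results.MP_d6bd81_co.DualDimension

open AffineSubspace Pool.Agent.MPd6bd81

/-- Every realization of `D` is planar: all points lie in the span of the points `0, 1, 7`. -/
lemma hull_le {m : ℕ} (R : Realization D m) : R.hullDim ≤ 2 := by
  set S : AffineSubspace ℝ (EuclideanSpace ℝ (Fin m)) :=
    affineSpan ℝ (Set.range ![R.pt 0, R.pt 1, R.pt 7]) with hS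
  have h0 : R.pt 0 ∈ S := subset_affineSpan ℝ _ ⟨0, rfl⟩
  have h1 : R.pt 1 ∈ S := subset_affineSpan ℝ _ ⟨1, rfl⟩
  have h7 : R.pt 7 ∈ S := subset_affineSpan ℝ _ ⟨2, rfl⟩
  have h2 : R.pt 2 ∈ S := R.rule1 (l := 0) (P := 0) (P' := 1) (Q := 2) (by decide) (by decide) (by decide) (by decide) h0 h1
  obtain ⟨h15, h16, h17⟩ := R.rule2 (S := S) (x := 15) (y := 16) (z := 17) (u := 1) (v := 2) (t := 7) (l1 := 11) (l2 := 12) (l3 := 13) (l' := 0)
    (by decide) (by decide) (by decide) (by decide) (by decide) (by decide) (by decide) (by decide) (by decide) (by decide) (by decide) (by decide) (by decide) (by decide) (by decide) (by decide) h1 h2 h7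
  have h14 : R.pt 14 ∈ S := R.rule1 (l := 8) (P := 7) (P' := 15) (Q := 14) (by decide) (by decide) (by decide) (by decide) h7 h15
  have h9 : R.pt 9 ∈ S := R.rule1 (l := 9) (P := 14) (P' := 16) (Q := 9) (by decide) (by decide) (by decide) (by decide) h14 h16
  have h8 : R.pt 8 ∈ S := R.rule1 (l := 10) (P := 14) (P' := 17) (Q := 8) (by decide) (by decide) (by decide) (by decide) h14 h17
  obtain ⟨h11, h10, h12⟩ := R.rule2 (S := S) (x := 11) (y := 10) (z := 12) (u := 1) (v := 0) (t := 8) (l1 := 2) (l2 := 5) (l3 := 3) (l' := 0)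
    (by decide) (by decide) (by decide) (by decide) (by decide) (by decide) (by decide) (by decide) (by decide) (by decide) (by decide) (by decide) (by decide) (by decide) (by decide) (by decide) h1 h0 h8
  have h13 : R.pt 13 ∈ S := R.rule1 (l := 6) (P := 7) (P' := 11) (Q := 13) (by decide) (by decide) (by decide) (by decide) h7 h11
  have h5 : R.pt 5 ∈ S := R.rule1 (l := 4) (P := 10) (P' := 13) (Q := 5) (by decide) (by decide) (by decide) (by decide) h10 h13
  obtain ⟨h20, h18, h21⟩ := R.rule2 (S := S) (x := 20) (y := 18) (z := 21) (u := 2) (v := 0) (t := 5) (l1 := 15) (l2 := 19) (l3 := 16) (l' := 0)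
    (by decide) (by decide) (by decide) (by decide) (by decide) (by decide) (by decide) (by decide) (by decide) (by decide) (by decide) (by decide) (by decide) (by decide) (by decide) (by decide) h2 h0 h5
  have h19 : R.pt 19 ∈ S := R.rule1 (l := 14) (P := 8) (P' := 18) (Q := 19) (by decide) (by decide) (by decide) (by decide) h8 h18
  have h6 : R.pt 6 ∈ S := R.rule1 (l := 17) (P := 19) (P' := 20) (Q := 6) (by decide) (by decide) (by decide) (by decide) h19 h20
  have h4 : R.pt 4 ∈ S := R.rule1 (l := 18) (P := 19) (P' := 21) (Q := 4) (by decide) (by decide) (by decide) (by decide) h19 h21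
  have h3 : R.pt 3 ∈ S := R.rule1 (l := 1) (P := 4) (P' := 5) (Q := 3) (by decide) (by decide) (by decide) (by decide) h4 h5
  obtain ⟨h24, h22, h25⟩ := R.rule2 (S := S) (x := 24) (y := 22) (z := 25) (u := 3) (v := 4) (t := 6) (l1 := 21) (l2 := 25) (l3 := 22) (l' := 1)
    (by decide) (by decide) (by decide) (by decide) (by decide) (by decide) (by decide) (by decide) (by decide) (by decide) (by decide) (by decide) (by decide) (by decide) (by decide) (by decide) h3 h4 h6
  obtain ⟨h25, h23, h24⟩ := R.rule2 (S := S) (x := 25) (y := 23) (z := 24) (u := 3) (v := 4) (t := 6) (l1 := 24) (l2 := 25) (l3 := 23) (l' := 1)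
    (by decide) (by decide) (by decide) (by decide) (by decide) (by decide) (by decide) (by decide) (by decide) (by decide) (by decide) (by decide) (by decide) (by decide) (by decide) (by decide) h3 h4 h6
  have hall : ∀ P, R.pt P ∈ S := by
    intro P
    fin_cases P
    exacts [h0, h1, h2, h3, h4, h5, h6, h7, h8, h9, h10, h11, h12, h13, h14, h15, h16, h17, h18,
      h19, h20, h21, h22, h23, h24, h25]
  have hle : affineSpan ℝ (Set.range R.pt) ≤ S := by
    rw [affineSpan_le]
    rintro _ ⟨P, rfl⟩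
    exact hall P
  have hSdim : Module.finrank ℝ S.direction ≤ 2 := by
    rw [hS, direction_affineSpan]
    exact finrank_vectorSpan_range_le ℝ _ (by simp)
  exact (Submodule.finrank_mono (AffineSubspace.direction_le hle)).trans hSdim

/-- Every realization of `D` spans at least a plane. -/
lemma two_le_hull {m : ℕ} (R : Realization D m) : 2 ≤ R.hullDim := by
  have hind : AffineIndependent ℝ ![R.pt 0, R.pt 1, R.pt 7] := by
    rw [affineIndependent_iff_not_collinear_set]
    intro hcol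
    have hne : (0 : Fin 26) ≠ 1 := by decide
    have hmem : R.pt 7 ∈ line[ℝ, R.pt 0, R.pt 1] :=
      hcol.mem_affineSpan_of_mem_of_ne (by simp) (by simp) (by simp)
        (fun h => hne (R.pt_inj h))
    rw [← R.ln_eq (l := 0) (by decide) (by decide) hne] at hmem
    exact absurd ((R.mem_iff 7 0).mp hmem) (by decide)
  have h2 : Module.finrank ℝ (vectorSpan ℝ (Set.range ![R.pt 0, R.pt 1, R.pt 7])) = 2 :=
    hind.finrank_vectorSpan (by simp)
  unfold Realization.hullDim
  rw [direction_affineSpan, ← h2]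
  apply Submodule.finrank_mono
  apply vectorSpan_mono
  rintro _ ⟨i, rfl⟩
  fin_cases i
  · exact ⟨0, rfl⟩
  · exact ⟨1, rfl⟩
  · exact ⟨7, rfl⟩

lemma dim_D : D.dim = 2 := by
  have h := D.dim_isGreatest ⟨2, ⟨R2⟩⟩
  obtain ⟨m, R, hR⟩ := h.1
  rw [← hR]
  exact le_antisymm (hull_le R) (two_le_hull R)

lemma three_le_R3 : 3 ≤ R3.hullDim := by
  have e : ∀ (i : Fin 26) (j : Fin 3), (R3.pt i) j = (c3 i j : ℝ) / (w3 i : ℝ) := fun i j => rfl
  set v : Fin 3 → EuclideanSpace ℝ (Fin 3) :=
    ![R3.pt 14 - R3.pt 11, R3.pt 21 - R3.pt 11, R3.pt 24 - R3.pt 11] with hv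
  have hli : LinearIndependent ℝ v := by
    rw [Fintype.linearIndependent_iff]
    intro g hg
    have h0 := congrArg (fun u : EuclideanSpace ℝ (Fin 3) => u 0) hg
    have h1 := congrArg (fun u : EuclideanSpace ℝ (Fin 3) => u 1) hg
    have h2 := congrArg (fun u : EuclideanSpace ℝ (Fin 3) => u 2) hg
    simp only [hv, Fin.sum_univ_three, Matrix.cons_val_zero, Matrix.cons_val_one, Matrix.cons_val,
      PiLp.add_apply, PiLp.smul_apply, PiLp.sub_apply, smul_eq_mul, PiLp.zero_apply, e] at h0 h1 h2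
    have k1 : c3 14 0 = 1 ∧ c3 14 1 = 1 ∧ c3 14 2 = 1029294 ∧ w3 14 = 1 := by decide +kernel
    have k2 : c3 21 0 = 1 ∧ c3 21 1 = 0 ∧ c3 21 2 = 1593393 ∧ w3 21 = 2 := by decide +kernel
    have k3 : c3 24 0 = 1 ∧ c3 24 1 = -1 ∧ c3 24 2 = 1337788 ∧ w3 24 = 4 := by decide +kernel
    have k4 : c3 11 0 = -5 ∧ c3 11 1 = 2 ∧ c3 11 2 = -427585 ∧ w3 11 = -4 := by decide +kernel
    rw [k1.1, k2.1, k3.1, k4.1, k1.2.2.2, k2.2.2.2, k3.2.2.2, k4.2.2.2] at h0
    rw [k1.2.1, k2.2.1, k3.2.1, k4.2.1, k1.2.2.2, k2.2.2.2, k3.2.2.2, k4.2.2.2] at h1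
    rw [k1.2.2.1, k2.2.2.1, k3.2.2.1, k4.2.2.1, k1.2.2.2, k2.2.2.2, k3.2.2.2, k4.2.2.2] at h2
    push_cast at h0 h1 h2
    intro i
    fin_cases i
    · show g 0 = 0
      linarith
    · show g 1 = 0
      linarith
    · show g 2 = 0
      linarith
  have hmem : ∀ i, v i ∈ vectorSpan ℝ (Set.range R3.pt) := by
    intro i
    fin_cases i
    · exact vsub_mem_vectorSpan ℝ ⟨14, rfl⟩ ⟨11, rfl⟩
    · exact vsub_mem_vectorSpan ℝ ⟨21, rfl⟩ ⟨11, rfl⟩
    · exact vsub_mem_vectorSpan ℝ ⟨24, rfl⟩ ⟨11, rfl⟩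
  have hfin : Module.finrank ℝ (Submodule.span ℝ (Set.range v)) = 3 := by
    rw [finrank_span_eq_card hli]; simp
  unfold Realization.hullDim
  rw [direction_affineSpan]
  refine hfin.symm.le.trans (Submodule.finrank_mono ?_)
  rw [Submodule.span_le]
  rintro _ ⟨i, rfl⟩
  exact hmem i

/-- Disproof of Q1: there is a balanced configuration `(26_3)` such that both it and its dual have
geometric realizations, its own dimension is `2`, and the dimension of its dual is larger. -/
theorem result : ∃ C : Config 26 26 3 3,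
    C.Realizable ∧ C.dual.Realizable ∧ C.dim = 2 ∧ 2 < C.dual.dim := by
  refine ⟨D, ⟨2, ⟨R2⟩⟩, ⟨3, ⟨R3⟩⟩, dim_D, ?_⟩
  have h := D.dual.dim_isGreatest ⟨3, ⟨R3⟩⟩
  exact lt_of_lt_of_le (Nat.lt_succ_self 2) (three_le_R3.trans (h.2 ⟨3, R3, rfl⟩))

end Pool.Agent.Results.MP_d6bd81_co.DualDimension
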